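import Pool.Agent.H380Lind.Final

/-!
# A Lindelöf space with `G_δ` points and cardinality `2 ^ 𝔠`

In ZFC there is a Lindelöf space of cardinality `2 ^ 𝔠 > 𝔠` in which every singleton is a
`G_δ` set.  The space is even first countable.
-/

open Set Filter Topology

namespace Pool.Agent.Results.MP_f6ebb1_gt.LindelofGdeltaPoints

open Pool.Agent.H380Lind

theorem mk_XX : Cardinal.mk (XX iot.{0}) = 2 ^ Cardinal.continuum.{0} := by
  have h0 : Cardinal.mk (LL.{0} → Bool) = 2 ^ Cardinal.continuum.{0} := by
    rw [← mk_LL.{0}]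
    simp
  have hX : XX iot.{0} = ((LL.{0} → Bool) × Finset C) := rfl
  rw [hX, Cardinal.mk_prod, Cardinal.lift_id, Cardinal.lift_id, h0]
  have hC : Cardinal.mk (Finset C) = Cardinal.continuum.{0} := by
    rw [Cardinal.mk_finset_of_infinite]
    simp [C]
  rw [hC]
  refine Cardinal.mul_eq_left ?_ (Cardinal.cantor _).le ?_
  · exact Cardinal.aleph0_le_continuum.trans (Cardinal.cantor _).le
  · exact Cardinal.continuum_ne_zero

/-- There is a Lindelöf space with `G_δ` points (and even a countable base at every point) whose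
cardinality is `2 ^ 𝔠`, hence larger than `𝔠`. -/
theorem result :
    ∃ (X : Type) (_ : TopologicalSpace X),
      LindelofSpace X ∧
      (∀ x : X, ∃ U : ℕ → Set X, (∀ n, IsOpen (U n)) ∧ ({x} : Set X) = ⋂ n, U n) ∧
      FirstCountableTopology X ∧
      Cardinal.mk X = 2 ^ Cardinal.continuum.{0} ∧
      Cardinal.continuum.{0} < Cardinal.mk X := by
  refine ⟨XX iot.{0}, inferInstance, lindelof _ iot_inj, ?_, inferInstance, mk_XX, ?_⟩
  · intro x
    refine ⟨fun n => U iot.{0} n x, fun n => isOpen_U _ n x, ?_⟩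
    refine Subset.antisymm ?_ ?_
    · intro y hy
      rw [mem_singleton_iff] at hy
      subst hy
      exact mem_iInter.2 fun n => mem_U_self _ n y
    · intro y hy
      rw [mem_iInter] at hy
      by_contra hyx
      have hyx' : y ≠ x := hyx
      have h1 : ({y}ᶜ : Set (XX iot.{0})) ∈ 𝓝 x :=
        isClosed_singleton.isOpen_compl.mem_nhds (fun h => hyx' (mem_singleton_iff.1 h).symm)
      obtain ⟨n, -, hn⟩ := (nhds_basis iot.{0} x).mem_iff.1 h1
      exact hn (hy n) rfl
  · rw [mk_XX]
    exact Cardinal.cantor _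

end Pool.Agent.Results.MP_f6ebb1_gt.LindelofGdeltaPoints
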